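import Pool.Agent.Helper34.ST.Basic

/-!
# Energy increment (module INC)
-/

set_option autoImplicit false

namespace Pool.Agent.Helper34.ST

open Finset

open Classical in
theorem inc_ed_eq {V : Type} (A : V → V → Prop) (X Y : Finset V) :
    ((ed A X Y : ℕ) : ℝ) = ∑ p ∈ X ×ˢ Y, (if A p.1 p.2 then (1 : ℝ) else 0) := by
  have e : {p : V × V | p.1 ∈ X ∧ p.2 ∈ Y ∧ A p.1 p.2}
      = (((X ×ˢ Y).filter (fun p => A p.1 p.2) : Finset (V × V)) : Set (V × V)) := by
    ext p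
    simp [and_assoc]
  unfold ed
  rw [e, Set.ncard_coe_finset, Finset.sum_ite, Finset.sum_const_zero, add_zero, Finset.sum_const,
    nsmul_eq_mul, mul_one]

theorem inc_mem_cl {V κ : Type} [Fintype V] (c : V → κ) (i : κ) (v : V) : v ∈ cl c i ↔ c v = i := by
  simp only [cl, Finset.mem_filter, Finset.mem_univ, true_and]

theorem inc_cl_pair {V κ : Type} [Fintype V] (c : V → κ) (i j : κ) :
    cl (fun p : V × V => (c p.1, c p.2)) (i, j) = cl c i ×ˢ cl c j := by
  ext p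
  rw [inc_mem_cl, Finset.mem_product, inc_mem_cl, inc_mem_cl, Prod.mk.injEq]

open Classical in
theorem inc_avg {V κ : Type} [Fintype V] (A : V → V → Prop) (c : V → κ) (p : V × V) :
    dn A (cl c (c p.1)) (cl c (c p.2)) *
      ((cl (fun p : V × V => (c p.1, c p.2)) (c p.1, c p.2)).card : ℝ) =
      ∑ q ∈ cl (fun p : V × V => (c p.1, c p.2)) (c p.1, c p.2), (if A q.1 q.2 then (1 : ℝ) else 0) := by
  rw [inc_cl_pair, ← inc_ed_eq, Finset.card_product, Nat.cast_mul]
  unfold dn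
  have h1 : 0 < (cl c (c p.1)).card := Finset.card_pos.2 ⟨p.1, (inc_mem_cl _ _ _).2 rfl⟩
  have h2 : 0 < (cl c (c p.2)).card := Finset.card_pos.2 ⟨p.2, (inc_mem_cl _ _ _).2 rfl⟩
  have h1' : (0 : ℝ) < (cl c (c p.1)).card := by exact_mod_cast h1
  have h2' : (0 : ℝ) < (cl c (c p.2)).card := by exact_mod_cast h2
  exact div_mul_cancel₀ _ (mul_pos h1' h2').ne'

theorem inc (hP : ST_PYT) : ST_INC := by
  classical
  intro V κ _ _ A ε c hε
  -- witnesses
  have hwit : ∀ k : κ × κ, ∃ XY : Finset V × Finset V, ¬ LReg A ε (cl c k.1) (cl c k.2) →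
      XY.1 ⊆ cl c k.1 ∧ XY.2 ⊆ cl c k.2 ∧ ε * (cl c k.1).card ≤ XY.1.card ∧ ε * (cl c k.2).card ≤ XY.2.card ∧
      (ed A XY.1 XY.2 : ℝ) < (dn A (cl c k.1) (cl c k.2) - ε) * (XY.1.card * XY.2.card) := by
    intro k
    by_cases h : LReg A ε (cl c k.1) (cl c k.2)
    · exact ⟨(∅, ∅), fun h' => absurd h h'⟩
    · have h' := h
      unfold LReg at h'
      push Not at h'
      obtain ⟨X', hX, Y', hY, h1, h2, h3⟩ := h'
      exact ⟨(X', Y'), fun _ => ⟨hX, hY, h1, h2, h3⟩⟩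
  choose XY hXY using hwit
  refine ⟨fun x => (c x, fun j => decide (x ∈ (XY (c x, j)).1), fun i => decide (x ∈ (XY (i, c x)).2)),
    fun x => rfl, ?_⟩
  set c' : V → κ × (κ → Bool) × (κ → Bool) :=
    fun x => (c x, fun j => decide (x ∈ (XY (c x, j)).1), fun i => decide (x ∈ (XY (i, c x)).2)) with hc'
  set B : κ × κ → Finset (V × V) :=
    fun k => if LReg A ε (cl c k.1) (cl c k.2) then ∅ else (XY k).1 ×ˢ (XY k).2 with hB
  have hBmem : ∀ k : κ × κ, ∀ x ∈ B k, ¬ LReg A ε (cl c k.1) (cl c k.2) ∧ x.1 ∈ (XY k).1 ∧ x.2 ∈ (XY k).2 ∧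
      c x.1 = k.1 ∧ c x.2 = k.2 := by
    intro k x hx
    by_cases h : LReg A ε (cl c k.1) (cl c k.2)
    · simp only [hB, if_pos h, Finset.notMem_empty] at hx
    · simp only [hB, if_neg h, Finset.mem_product] at hx
      obtain ⟨h1, h2, _⟩ := hXY k h
      exact ⟨h, hx.1, hx.2, (inc_mem_cl _ _ _).1 (h1 hx.1), (inc_mem_cl _ _ _).1 (h2 hx.2)⟩
  have key := hP (V × V) (κ × κ) ((κ × (κ → Bool) × (κ → Bool)) × (κ × (κ → Bool) × (κ → Bool))) (κ × κ)
    (fun p => (c p.1, c p.2)) (fun p => (c' p.1, c' p.2)) (fun q => (q.1.1, q.2.1))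
    (fun p => if A p.1 p.2 then (1 : ℝ) else 0)
    (fun p => dn A (cl c (c p.1)) (cl c (c p.2))) (fun p => dn A (cl c' (c' p.1)) (cl c' (c' p.2)))
    B (fun k => dn A (cl c k.1) (cl c k.2)) (fun x => rfl) (fun x => inc_avg A c x)
    (fun x => inc_avg A c' x) ?_ ?_ ?_
  · rw [Fintype.sum_prod_type, Fintype.sum_prod_type (f := fun p : V × V => dn A (cl c' (c' p.1)) (cl c' (c' p.2)) ^ 2)] at key
    have hen : en A c = ∑ x, ∑ y, dn A (cl c (c x)) (cl c (c y)) ^ 2 := rfl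
    have hen' : en A c' = ∑ x, ∑ y, dn A (cl c' (c' x)) (cl c' (c' y)) ^ 2 := rfl
    have hirr : ε ^ 4 * irr A ε c ≤ ∑ k : κ × κ, ((∑ x ∈ B k, (if A x.1 x.2 then (1 : ℝ) else 0))
        - dn A (cl c k.1) (cl c k.2) * (B k).card) ^ 2 / (B k).card := by
      rw [Fintype.sum_prod_type]
      unfold irr
      rw [Finset.mul_sum]
      refine Finset.sum_le_sum fun i _ => ?_
      rw [Finset.mul_sum]
      refine Finset.sum_le_sum fun j _ => ?_
      by_cases h : LReg A ε (cl c i) (cl c j)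
      · rw [if_pos h, mul_zero]
        exact div_nonneg (sq_nonneg _) (Nat.cast_nonneg _)
      · rw [if_neg h]
        have hBk : B (i, j) = (XY (i, j)).1 ×ˢ (XY (i, j)).2 := by
          simp only [hB, if_neg h]
        rw [hBk, ← inc_ed_eq, Finset.card_product, Nat.cast_mul]
        obtain ⟨h1, h2, h3, h4, h5⟩ := hXY (i, j) h
        simp only at h1 h2 h3 h4 h5
        have p1 : (0 : ℝ) ≤ (XY (i, j)).1.card := Nat.cast_nonneg _
        have p2 : (0 : ℝ) ≤ (XY (i, j)).2.card := Nat.cast_nonneg _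
        have p3 : (0 : ℝ) ≤ (cl c i).card := Nat.cast_nonneg _
        have p4 : (0 : ℝ) ≤ (cl c j).card := Nat.cast_nonneg _
        have pe : (0 : ℝ) ≤ (ed A (XY (i, j)).1 (XY (i, j)).2 : ℝ) := Nat.cast_nonneg _
        generalize ((XY (i, j)).1.card : ℝ) = a1 at *
        generalize ((XY (i, j)).2.card : ℝ) = a2 at *
        generalize ((cl c i).card : ℝ) = b1 at *
        generalize ((cl c j).card : ℝ) = b2 at *
        generalize (ed A (XY (i, j)).1 (XY (i, j)).2 : ℝ) = e at *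
        generalize dn A (cl c i) (cl c j) = D at *
        have hm : 0 < a1 * a2 := by
          rcases (mul_nonneg p1 p2).lt_or_eq with h6 | h6
          · exact h6
          · rw [← h6, mul_zero] at h5
            exact absurd h5 (not_lt.2 pe)
        rw [le_div_iff₀ hm]
        have h6 : ε * (a1 * a2) ≤ D * (a1 * a2) - e := by nlinarith
        have h7 : 0 ≤ ε * (a1 * a2) := mul_nonneg hε.le hm.le
        have h8 : (ε * (a1 * a2)) ^ 2 ≤ (e - D * (a1 * a2)) ^ 2 := by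
          have : (e - D * (a1 * a2)) ^ 2 = (D * (a1 * a2) - e) ^ 2 := by ring
          rw [this]
          exact pow_le_pow_left₀ h7 h6 2
        have h9 : (ε * b1) * (ε * b2) ≤ a1 * a2 := mul_le_mul h3 h4 (mul_nonneg hε.le p4) p1
        calc ε ^ 4 * (b1 * b2) * (a1 * a2) = ε ^ 2 * (a1 * a2) * ((ε * b1) * (ε * b2)) := by ring
          _ ≤ ε ^ 2 * (a1 * a2) * (a1 * a2) :=
              mul_le_mul_of_nonneg_left h9 (mul_nonneg (sq_nonneg _) hm.le)
          _ = (ε * (a1 * a2)) ^ 2 := by ring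
          _ ≤ _ := h8
    rw [hen, hen']
    linarith
  · intro k l hkl
    rw [Finset.disjoint_left]
    intro x hx hx'
    obtain ⟨_, _, _, h1, h2⟩ := hBmem k x hx
    obtain ⟨_, _, _, h3, h4⟩ := hBmem l x hx'
    exact hkl (Prod.ext (h1.symm.trans h3) (h2.symm.trans h4))
  · intro k x hx
    obtain ⟨_, _, _, h1, h2⟩ := hBmem k x hx
    show dn A (cl c (c x.1)) (cl c (c x.2)) = dn A (cl c k.1) (cl c k.2)
    rw [h1, h2]
  · intro k x hx y hy
    obtain ⟨h0, hx1, hx2, h1, h2⟩ := hBmem k x hx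
    obtain ⟨hy1, hy2⟩ := Prod.mk.inj hy
    have e1 : c y.1 = c x.1 := congrArg Prod.fst hy1
    have e2 : c y.2 = c x.2 := congrArg Prod.fst hy2
    have e3 : (fun j => decide (y.1 ∈ (XY (c y.1, j)).1)) = fun j => decide (x.1 ∈ (XY (c x.1, j)).1) :=
      congrArg (fun t => t.2.1) hy1
    have e4 : (fun i => decide (y.2 ∈ (XY (i, c y.2)).2)) = fun i => decide (x.2 ∈ (XY (i, c x.2)).2) :=
      congrArg (fun t => t.2.2) hy2
    have e5 := congrFun e3 k.2
    have e6 := congrFun e4 k.1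
    simp only [e1, e2, h1, h2, Prod.mk.eta, decide_eq_decide] at e5 e6
    simp only [hB, if_neg h0, Finset.mem_product]
    exact ⟨e5.2 hx1, e6.2 hx2⟩

end Pool.Agent.Helper34.ST
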